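import Mathlib

/-!
# A family of squarefree congruent numbers
-/

set_option autoImplicit false

namespace Pool.Agent.T6.H35.CB

open Finset

/-- `x² + a y² = z²`, `x² - a y² = t²` is solvable in positive integers -/
def Congruent (a : ℕ) : Prop :=
  ∃ x y z t : ℕ, 0 < x ∧ 0 < y ∧ 0 < z ∧ 0 < t ∧ x ^ 2 + a * y ^ 2 = z ^ 2 ∧
    x ^ 2 = a * y ^ 2 + t ^ 2

/-- the numbers `u (4 u - 1) (4 u + 1)` -/
def cn (u : ℕ) : ℕ := u * (4 * u - 1) * (4 * u + 1)

lemma cn_congruent {u : ℕ} (hu : 1 ≤ u) : Congruent (cn u) := by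
  obtain ⟨w, rfl⟩ : ∃ w, u = w + 1 := ⟨u - 1, by omega⟩
  refine ⟨16 * w ^ 2 + 32 * w + 17, 4, 16 * w ^ 2 + 40 * w + 23, 16 * w ^ 2 + 24 * w + 7,
    by positivity, by norm_num, by positivity, by positivity, ?_, ?_⟩
  · have : 4 * (w + 1) - 1 = 4 * w + 3 := by omega
    rw [cn, this]; ring
  · have : 4 * (w + 1) - 1 = 4 * w + 3 := by omega
    rw [cn, this]; ring

lemma cn_cast {u : ℕ} (hu : 1 ≤ u) : (cn u : ℝ) = 16 * (u : ℝ) ^ 3 - u := by
  have h : 1 ≤ 4 * u := by omega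
  rw [cn]
  push_cast [Nat.cast_sub h]
  ring

lemma cn_le {u : ℕ} : cn u ≤ 16 * u ^ 3 := by
  rcases Nat.eq_zero_or_pos u with rfl | hu
  · simp [cn]
  · obtain ⟨w, rfl⟩ : ∃ w, u = w + 1 := ⟨u - 1, by omega⟩
    have : 4 * (w + 1) - 1 = 4 * w + 3 := by omega
    rw [cn, this]
    nlinarith [Nat.zero_le w]

lemma cn_mono {u v : ℕ} (h : u < v) : cn u < cn v := by
  unfold cn
  have h1 : 0 < v := by omega
  have h3 : u * (4 * u - 1) ≤ v * (4 * v - 1) := Nat.mul_le_mul h.le (by omega)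
  have h4 : 0 < v * (4 * v - 1) := Nat.mul_pos h1 (by omega)
  exact Nat.mul_lt_mul_of_le_of_lt h3 (by omega) h4

lemma cn_inj : Function.Injective cn := (strictMono_nat_of_lt_succ fun n => cn_mono (Nat.lt_succ_self n)).injective

/-- the residue classes -/
def sr (r : ℕ) : ℕ := if r = 5 then 3 else if r = 7 then 1 else 2

lemma cn_mod {r : ℕ} (hr : r = 5 ∨ r = 6 ∨ r = 7) (v : ℕ) : cn (8 * v + sr r) % 8 = r := by
  rcases hr with rfl | rfl | rfl
  · have e : cn (8 * v + sr 5) = 8 * (4 * v * (8 * v + 3) * (32 * v + 13) + 11 * (4 * v * 8 / 8 * 0) + (v * 11 * (32 * v + 13)) + 3 * 11 * 4 * v + 53) + 5 := by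
      unfold cn sr
      rw [if_pos rfl]
      have : 4 * (8 * v + 3) - 1 = 32 * v + 11 := by omega
      rw [this]
      simp only [mul_zero, add_zero]
      ring
    rw [e]
    omega
  · unfold cn sr
    rw [if_neg (by norm_num), if_neg (by norm_num)]
    have h : 4 * (8 * v + 2) - 1 = 32 * v + 7 := by omega
    rw [h, Nat.mul_mod, Nat.mul_mod (8 * v + 2)]
    have h1 : (8 * v + 2) % 8 = 2 := by omega
    have h2 : (32 * v + 7) % 8 = 7 := by omega
    have h3 : (4 * (8 * v + 2) + 1) % 8 = 1 := by omega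
    rw [h1, h2, h3]
  · unfold cn sr
    rw [if_neg (by norm_num), if_pos rfl]
    have h : 4 * (8 * v + 1) - 1 = 32 * v + 3 := by omega
    rw [h, Nat.mul_mod, Nat.mul_mod (8 * v + 1)]
    have h1 : (8 * v + 1) % 8 = 1 := by omega
    have h2 : (32 * v + 3) % 8 = 3 := by omega
    have h3 : (4 * (8 * v + 1) + 1) % 8 = 5 := by omega
    rw [h1, h2, h3]

/-- the three factors -/
def fac (i : Fin 3) (u : ℕ) : ℕ := if i = 0 then u else if i = 1 then 4 * u - 1 else 4 * u + 1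

lemma cn_sqf {u : ℕ} (hu : 1 ≤ u) (h4 : ¬ 4 ∣ u)
    (h : ∀ i : Fin 3, ∀ m : ℕ, Odd m → 3 ≤ m → ¬ m ^ 2 ∣ fac i u) : Squarefree (cn u) := by
  have key : ∀ x : ℕ, ¬ 4 ∣ x → (∀ m : ℕ, Odd m → 3 ≤ m → ¬ m ^ 2 ∣ x) → Squarefree x := by
    intro x hx hm
    rw [Nat.squarefree_iff_prime_squarefree]
    intro p hp hd
    rcases hp.eq_two_or_odd' with rfl | ho
    · exact hx hd
    · refine hm p ho ?_ (by rw [pow_two]; exact hd)
      have := hp.two_le
      rcases ho with ⟨a, ha⟩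
      omega
  have s0 : Squarefree u := key u h4 (fun m a b => h 0 m a b)
  have s1 : Squarefree (4 * u - 1) := key _ (by omega) (fun m a b => h 1 m a b)
  have s2 : Squarefree (4 * u + 1) := key _ (by omega) (fun m a b => h 2 m a b)
  have c1 : Nat.Coprime u (4 * u - 1) := by
    obtain ⟨w, rfl⟩ : ∃ w, u = w + 1 := ⟨u - 1, by omega⟩
    have : 4 * (w + 1) - 1 = (w + 1) * 3 + w := by omega
    rw [this]
    simp
  have c2 : Nat.Coprime u (4 * u + 1) := by
    have h5 : Nat.gcd u (4 * u + 1) ∣ 1 :=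
      (Nat.dvd_add_right ((Nat.gcd_dvd_left u (4 * u + 1)).mul_left 4)).1 (Nat.gcd_dvd_right u (4 * u + 1))
    exact Nat.dvd_one.1 h5
  have c3 : Nat.Coprime (4 * u - 1) (4 * u + 1) := by
    have : 4 * u + 1 = (4 * u - 1) + 2 := by omega
    rw [this]
    simp only [Nat.coprime_self_add_right]
    rw [Nat.coprime_two_right]
    exact ⟨2 * u - 1, by omega⟩
  unfold cn
  rw [Nat.squarefree_mul (Nat.Coprime.mul_left c2 c3), Nat.squarefree_mul c1]
  exact ⟨⟨s0, s1⟩, s2⟩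

end Pool.Agent.T6.H35.CB
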